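import Pool.Agent.H839.WI.Main

/-!
# Witten's conjecture is decided by finitely many Donaldson invariants of one surface

Let `X` be a closed oriented smooth 4-manifold with `b_1 = 0`, `b^+ > 1` odd and no torsion in
`H_2(X;ℤ)`, of Donaldson simple type and Seiberg-Witten simple type. The data of `X` and the
theorems on it which are used (structure theorem of Kronheimer and Mrowka, adjunction inequalities)
are collected in `Manifold`.

Let `h₀ ≠ 0` be the class of a smoothly embedded surface of genus `g ≥ 1` with `h₀² ≥ 0` which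
separates the basic classes: different Donaldson or Seiberg-Witten basic classes `K` have different
numbers `K·h₀`. There are such classes, with `h₀² > 0`, on each `X`. Then Witten's formula with the
constant `c`, for all `w` and `h`, is equivalent to its special case for one `w₀`, the one class
`h₀`, and the Donaldson invariants `D^{w₀}((1 + x/2) h₀^d)` with `d ≤ 2g - 2 - h₀²`. So `X` satisfies
Witten's conjecture if and only if these finitely many numbers are as predicted, for some `c ≠ 0`.

The reason: by the adjunction inequalities the numbers `K·h₀` are among the `a + 1` numbers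
`-a, -a + 2, …, a`, where `a = 2g - 2 - h₀²`, and a combination of the exponential functions with these
exponents vanishes if it vanishes to order `a + 1`.
-/

namespace Pool.Agent.Results.MP_307c8f_gt.OneSurfaceClass

open Pool.Agent.H839.WI

theorem result {H : Type} [AddCommGroup H] (X : Manifold H) :
    (∃ (h₀ : H) (g : ℕ), X.Rep h₀ g ∧ 1 ≤ g ∧ 0 < X.Q h₀ h₀ ∧ X.Separates h₀) ∧
    ∀ (w₀ h₀ : H) (g : ℕ), X.Rep h₀ g → 1 ≤ g → h₀ ≠ 0 → 0 ≤ X.Q h₀ h₀ → X.Separates h₀ →
      (∀ c : ℚ, List.TFAE
        [X.Formula c,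
         ∀ K, X.β K = c * X.SW K,
         X.Agree c w₀ h₀ (2 * g - 2 - X.Q h₀ h₀)]) ∧
      (X.Question ↔ ∃ c : ℚ, c ≠ 0 ∧ X.Agree c w₀ h₀ (2 * g - 2 - X.Q h₀ h₀)) := by
  constructor
  · obtain ⟨h₀, hQ, hsep⟩ := X.exists_separating
    obtain ⟨g, hg, hrep⟩ := X.rep h₀
    exact ⟨h₀, g, hrep, hg, hQ, hsep⟩
  intro w₀ h₀ g hrep hg h0 hQ hsep
  have main : ∀ c : ℚ, List.TFAE
      [X.Formula c,
       ∀ K, X.β K = c * X.SW K,
       X.Agree c w₀ h₀ (2 * g - 2 - X.Q h₀ h₀)] := by
    intro c
    tfae_have 1 → 3 := fun h d _ => by rw [h w₀ h₀]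
    tfae_have 3 → 2 := fun h => X.key w₀ h₀ g hrep hg h0 hQ hsep c h
    tfae_have 2 → 1 := fun h => X.formula_of c h
    tfae_finish
  refine ⟨main, ?_, ?_⟩
  · rintro ⟨_, c, hc, h⟩
    exact ⟨c, hc, ((main c).out 0 2).1 h⟩
  · rintro ⟨c, hc, h⟩
    have h1 : ∀ K, X.β K = c * X.SW K := ((main c).out 2 1).1 h
    refine ⟨?_, c, hc, ((main c).out 2 0).1 h⟩
    ext K
    simp [h1 K, hc]

end Pool.Agent.Results.MP_307c8f_gt.OneSurfaceClass
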